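import Pool.Agent.H78.WordMap

/-!
Problem MP_215b2d_al, Q1: there are words of odd length that are not proper powers and are
non-surjective on `PSL_2(q)` for infinitely many `q`.  `FreeGroup.norm w` is the number of letters
of the reduced spelling of `w`.
-/

set_option autoImplicit false

namespace Pool.Agent.Results.MP_215b2d_al.OddWord

open Pool.Agent.H78.WordMap

/-- For every `n` with `n = 3 mod 6` and `n` at least `21` there is a word of length `n` that is not
a proper power and whose word map is non-surjective on `PSL_2(q)` for every power `q` of two, in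
particular for infinitely many prime powers `q`. -/
theorem result (n : ℕ) (hn : 21 ≤ n) (h6 : n % 6 = 3) :
    ∃ w : FreeGroup (Fin 2), w.norm = n ∧ ¬ IsProperPower w ∧
      (∀ k : ℕ, 1 ≤ k → NonSurjOn w (2 ^ k)) ∧
      {q : ℕ | IsPrimePow q ∧ NonSurjOn w q}.Infinite := by
  obtain ⟨b, hb, rfl⟩ : ∃ b, 1 ≤ b ∧ n = 15 + 6 * b := ⟨(n - 15) / 6, by omega, by omega⟩
  have hns : ∀ k : ℕ, 1 ≤ k → NonSurjOn (wd b) (2 ^ k) := by
    intro k hk F _ _ hF
    haveI : CharP F 2 := by
      obtain ⟨p, hp⟩ := CharP.exists F
      have hprime : p.Prime := CharP.char_is_prime F p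
      haveI := Fact.mk hprime
      obtain ⟨m, -, hm⟩ := FiniteField.card F p
      have h2 : p = 2 := by
        rw [hF] at hm
        have h3 : p ∣ 2 ^ k := by rw [hm]; exact dvd_pow_self p m.2.ne'
        exact (Nat.prime_dvd_prime_iff_eq hprime Nat.prime_two).mp (hprime.dvd_of_dvd_pow h3)
      rwa [h2] at hp
    exact not_surjective b F
  refine ⟨wd b, norm_wd hb, ?_, hns, ?_⟩
  · rintro ⟨v, k, hk, h⟩
    exact not_power hb v k hk h
  · apply Set.infinite_of_injective_forall_mem (f := fun k : ℕ => 2 ^ (k + 1))
    · intro a b h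
      have := Nat.pow_right_injective (le_refl 2) h
      omega
    · intro k
      exact ⟨Nat.prime_two.isPrimePow.pow (Nat.succ_ne_zero k), hns (k + 1) (by omega)⟩

end Pool.Agent.Results.MP_215b2d_al.OddWord
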